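import Mathlib.AlgebraicTopology.SimplicialSet.Homotopy
import Mathlib.AlgebraicTopology.SimplicialSet.KanComplex
import Mathlib.AlgebraicTopology.SimplicialSet.Nerve
import Mathlib.CategoryTheory.MorphismProperty.Factorization
import Mathlib.CategoryTheory.MorphismProperty.Limits
import Mathlib.CategoryTheory.Widesubcategory
import Pool.Agent.K4H28.WHE.Fact
import Pool.Agent.K4H28.WHE.Site
import Pool.Agent.K4H28.WHE.SiteEx

/-!
# Every homotopy type is realized by a partial model category

Question Q1 of MP_64c6ca_gt: for every small category `D` there is a partial model category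
`(M, W)` such that `D` and `W` are equivalent in the Thomason model structure.
-/

open CategoryTheory Limits Opposite Simplicial Pool.Agent.K4H28.WHE

universe u

namespace Pool.Agent.Results.MP_64c6ca_gt.AllHomotopyTypes

/-- The set `[X, Z]` of simplicial homotopy classes of maps of simplicial sets `X ⟶ Z`: the
quotient of the set of maps by the equivalence relation generated by the existence of a
simplicial homotopy `X ⊗ Δ[1] ⟶ Z`. -/
def HomotopyClasses (X Z : SSet.{u}) : Type u :=
  Quot (fun f g : X ⟶ Z => Nonempty (SSet.Homotopy f g))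

lemma nonempty_homotopy_iff {X Z : SSet.{u}} (f g : X ⟶ Z) :
    Nonempty (SSet.Homotopy f g) ↔ Homotopic f g := by
  constructor
  · rintro ⟨H⟩
    exact ⟨H.h, H.h₀, H.h₁⟩
  · rintro ⟨h, h₀, h₁⟩
    exact ⟨{ h := h
             h₀ := h₀
             h₁ := h₁
             rel := by
               refine NatTrans.ext (funext fun n => ?_)
               refine ConcreteCategory.hom_ext _ _ (fun z => ?_)
               exact z.1.2.elim }⟩

/-- Homotopies can be precomposed with a map. -/
lemma homotopy_precomp {X Y Z : SSet.{u}} (f : X ⟶ Y) (g g' : Y ⟶ Z)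
    (h : Nonempty (SSet.Homotopy g g')) : Nonempty (SSet.Homotopy (f ≫ g) (f ≫ g')) := by
  rw [nonempty_homotopy_iff] at *
  exact h.comp_left f

/-- Precomposition with `f : X ⟶ Y`, as a map `[Y, Z] → [X, Z]`. -/
def HomotopyClasses.precomp {X Y : SSet.{u}} (f : X ⟶ Y) (Z : SSet.{u}) :
    HomotopyClasses Y Z → HomotopyClasses X Z :=
  Quot.map (fun g => f ≫ g) (fun g g' h => homotopy_precomp f g g' h)

/-- A map `f : X ⟶ Y` of simplicial sets is a weak homotopy equivalence if for every Kan complex
`Z` precomposition with `f` is a bijection `[Y, Z] → [X, Z]`. -/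
def IsWeakHomotopyEquivalence {X Y : SSet.{u}} (f : X ⟶ Y) : Prop :=
  ∀ (Z : SSet.{u}) [SSet.KanComplex Z], Function.Bijective (HomotopyClasses.precomp f Z)

/-- Two small categories are equivalent in the Thomason model structure if they are joined by a
finite zigzag of functors whose nerves are weak homotopy equivalences. -/
def ThomasonEquivalent (A B : Type u) [SmallCategory A] [SmallCategory B] : Prop :=
  Relation.EqvGen
    (fun X Y : Cat.{u, u} => ∃ F : X ⥤ Y, IsWeakHomotopyEquivalence (nerveMap F))
    (Cat.of A) (Cat.of B)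

/-- A partial model category with underlying category `M`. -/
structure PartialModelCategory (M : Type u) [SmallCategory M] where
  /-- the weak equivalences -/
  W : MorphismProperty M
  /-- the weak equivalences form a subcategory containing all the objects -/
  W_mult : W.IsMultiplicative
  /-- the acyclic cofibrations -/
  C : MorphismProperty M
  /-- the acyclic fibrations -/
  F : MorphismProperty M
  C_le : C ≤ W
  F_le : F ≤ W
  /-- the two out of six property -/
  two_out_of_six : ∀ {A₀ A₁ A₂ A₃ : M} (r : A₀ ⟶ A₁) (s : A₁ ⟶ A₂) (t : A₂ ⟶ A₃),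
    W (r ≫ s) → W (s ≫ t) → W r ∧ W s ∧ W t ∧ W (r ≫ s ≫ t)
  /-- acyclic cofibrations have pushouts along all morphisms of `M` -/
  hasPushout : ∀ {X Y Z : M} (f : X ⟶ Y) (g : X ⟶ Z), C f → HasPushout f g
  /-- and these pushouts are acyclic cofibrations -/
  C_pushout : ∀ {X Y Z P : M} {f : X ⟶ Y} {g : X ⟶ Z} {g' : Y ⟶ P} {f' : Z ⟶ P},
    IsPushout f g g' f' → C f → C f'
  /-- acyclic fibrations have pullbacks along all morphisms of `M` -/
  hasPullback : ∀ {X Y Z : M} (f : X ⟶ Z) (g : Y ⟶ Z), F f → HasPullback f g
  /-- and these pullbacks are acyclic fibrations -/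
  F_pullback : ∀ {X Y Z P : M} {f : X ⟶ Z} {g : Y ⟶ Z} {g' : P ⟶ X} {f' : P ⟶ Y},
    IsPullback g' f' f g → F f → F f'
  /-- functorial factorization, in the category of weak equivalences -/
  factorization : Nonempty (MorphismProperty.FunctorialFactorizationData
    (C.inverseImage (wideSubcategoryInclusion W)) (F.inverseImage (wideSubcategoryInclusion W)))

attribute [instance] PartialModelCategory.W_mult

lemma homotopic_of_quot {X Z : SSet.{u}} [SSet.KanComplex Z] {f g : X ⟶ Z}
    (h : (Quot.mk _ f : HomotopyClasses X Z) = Quot.mk _ g) : Homotopic f g := by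
  have h1 := Quot.eqvGen_exact h
  clear h
  induction h1 with
  | rel a b hab => exact (nonempty_homotopy_iff a b).1 hab
  | refl a => exact Homotopic.refl a
  | symm a b _ ih => exact ih.symm
  | trans a b c _ _ ih1 ih2 => exact ih1.trans ih2

lemma isWeakHomotopyEquivalence_of_isWeq {X Y : SSet.{u}} {f : X ⟶ Y} (h : IsWeq f) :
    IsWeakHomotopyEquivalence f := by
  intro Z _
  constructor
  · rintro ⟨g⟩ ⟨g'⟩ hg
    apply Quot.sound
    rw [nonempty_homotopy_iff]
    exact (h Z).2 g g' (homotopic_of_quot hg)
  · rintro ⟨g⟩
    obtain ⟨g', hg'⟩ := (h Z).1 g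
    refine ⟨Quot.mk _ g', Quot.sound ?_⟩
    rw [nonempty_homotopy_iff]
    exact hg'

/-- The partial model category of weakly contractible presheaves. -/
noncomputable def pmc {S : Type u} [SmallCategory S] {C : Cyl S} (W : WData C) :
    PartialModelCategory (WCat W) where
  W := ⊤
  W_mult := inferInstance
  C := cofW W
  F := fibW W
  C_le := le_top
  F_le := le_top
  two_out_of_six := fun _ _ _ _ _ => ⟨trivial, trivial, trivial, trivial⟩
  hasPushout f g hf := by
    obtain ⟨P, g', f', h, -⟩ := exists_pushoutW f g hf
    exact h.hasPushout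
  C_pushout h hf := cofW_pushout h hf
  hasPullback f g hf := by
    obtain ⟨P, g', f', h, -⟩ := exists_pullbackW f g hf
    exact h.hasPullback
  F_pullback h hf := fibW_pullback h hf
  factorization := ⟨factData W ⊤ (fun _ => trivial)⟩

/-- **Every homotopy type is realized by a partial model category.** For every small category `D`
there is a partial model category with small underlying category `M` whose category of weak
equivalences is equivalent to `D` in the Thomason model structure. Moreover the acyclic
cofibrations and the acyclic fibrations can be taken to be subcategories. -/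
theorem result (D : Type u) [SmallCategory D] :
    ∃ (M : Type u) (_ : SmallCategory M) (P : PartialModelCategory M),
      P.C.IsMultiplicative ∧ P.F.IsMultiplicative ∧
        ThomasonEquivalent D (WideSubcategory P.W) := by
  obtain ⟨W⟩ := exists_WData (cylSi D)
  refine ⟨WCat W, inferInstance, pmc W, ?_, ?_, ?_⟩
  · change (cofW W).IsMultiplicative
    infer_instance
  · change (fibW W).IsMultiplicative
    infer_instance
  · choose o i using W.rep
    have h1 : IsWeq (nerveMap (Tot.pc (inducedFunctor W.φ))) :=
      isWeq_nerveMap_pc W.φ o (fun c => (i c).some)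
    have h2 : IsWeq (nerveMap (Tot.pj (inducedFunctor W.φ))) :=
      isWeq_nerveMap_pj _ W.wcp
    have h3 := isWeq_fst_Si D
    let K : WCat W ⥤ WideSubcategory (⊤ : MorphismProperty (WCat W)) :=
      { obj := fun X => ⟨X⟩, map := fun f => ⟨f, trivial⟩ }
    have h4 : IsWeq (nerveMap (wideSubcategoryInclusion (⊤ : MorphismProperty (WCat W)))) := by
      apply IsWeq.of_homotopyInverse (nerveMap K)
      · exact KHomotopic.refl _
      · exact KHomotopic.refl _
    have e1 : Relation.EqvGen
        (fun X Y : Cat.{u, u} => ∃ F : X ⥤ Y, IsWeakHomotopyEquivalence (nerveMap F))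
        (Cat.of (Si D)) (Cat.of D) :=
      Relation.EqvGen.rel _ _ ⟨CategoryTheory.Prod.fst D NN,
        isWeakHomotopyEquivalence_of_isWeq h3⟩
    have e2 : Relation.EqvGen
        (fun X Y : Cat.{u, u} => ∃ F : X ⥤ Y, IsWeakHomotopyEquivalence (nerveMap F))
        (Cat.of (Tot (inducedFunctor W.φ))) (Cat.of (Si D)) :=
      Relation.EqvGen.rel _ _ ⟨_, isWeakHomotopyEquivalence_of_isWeq h1⟩
    have e3 : Relation.EqvGen
        (fun X Y : Cat.{u, u} => ∃ F : X ⥤ Y, IsWeakHomotopyEquivalence (nerveMap F))
        (Cat.of (Tot (inducedFunctor W.φ))) (Cat.of (WCat W)) :=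
      Relation.EqvGen.rel _ _ ⟨_, isWeakHomotopyEquivalence_of_isWeq h2⟩
    have e4 : Relation.EqvGen
        (fun X Y : Cat.{u, u} => ∃ F : X ⥤ Y, IsWeakHomotopyEquivalence (nerveMap F))
        (Cat.of (WideSubcategory (⊤ : MorphismProperty (WCat W)))) (Cat.of (WCat W)) :=
      Relation.EqvGen.rel _ _ ⟨_, isWeakHomotopyEquivalence_of_isWeq h4⟩
    exact (e1.symm _ _).trans _ _ _ ((e2.symm _ _).trans _ _ _ (e3.trans _ _ _ (e4.symm _ _)))

end Pool.Agent.Results.MP_64c6ca_gt.AllHomotopyTypes
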